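import Pool.Agent.Q211.King.OneP

set_option autoImplicit false
open MeasureTheory Filter Topology

namespace Pool.Agent.Results.MP_5b044e_pr.LimitValue

/-- A percolation game on `ℤ^d` with action sets `I` (Player 1) and `J` (Player 2): stationary,
uniformly bounded payoffs `g` and the transition map `q`. Independence and ergodicity of the
payoffs are not required here. -/
structure PercGame (d : ℕ) (I J : Type) {Ω : Type} [MeasurableSpace Ω] (P : Measure Ω) where
  τ : (Fin d → ℤ) → Ω → Ω
  τ_mp : ∀ z, MeasurePreserving (τ z) P P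
  τ_add : ∀ z z' ω, τ (z + z') ω = τ z (τ z' ω)
  g : Ω → (Fin d → ℤ) → I → J → ℝ
  g_meas : ∀ z i j, Measurable fun ω => g ω z i j
  g_bdd : ∃ C, ∀ ω z i j, |g ω z i j| ≤ C
  g_stat : ∀ z z' ω i j, g (τ z ω) z' i j = g ω (z + z') i j
  q : I → J → (Fin d → ℤ)

variable {d : ℕ} {I J Ω : Type} [MeasurableSpace Ω] {P : Measure Ω}

/-- The value of the game with total payoff over `n` stages started at `z` (Player 1 picks `i`,
then Player 2, seeing `i`, picks `j`), by backward induction. If only one player has a choice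
this is the best total payoff over all action sequences of length `n`. -/
noncomputable def total (G : PercGame d I J P) : ℕ → Ω → (Fin d → ℤ) → ℝ
  | 0, _, _ => 0
  | n + 1, ω, z => ⨆ i, ⨅ j, (G.g ω z i j + total G n ω (z + G.q i j))

/-- the `n`-stage value -/
noncomputable def value (G : PercGame d I J P) (n : ℕ) (ω : Ω) (z : Fin d → ℤ) : ℝ :=
  total G n ω z / n

open Pool.Agent.Q211.King

theorem total_max (G : PercGame d I J P) (j0 : J) (hJ : Subsingleton J) (n : ℕ) (ω : Ω) :
    ∀ z, total G n ω z = W (fun ω z i => G.g ω z i j0) (fun i => G.q i j0) n ω z := by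
  induction n with
  | zero => intro z; rfl
  | succ n ih =>
    intro z
    simp only [total, W]
    congr 1
    funext i
    have : ∀ j, G.g ω z i j + total G n ω (z + G.q i j) =
        G.g ω z i j0 + W (fun ω z i => G.g ω z i j0) (fun i => G.q i j0) n ω (z + G.q i j0) := by
      intro j
      rw [Subsingleton.elim j j0, ih]
    have hne : Nonempty J := ⟨j0⟩
    simp_rw [this]
    exact ciInf_const

theorem total_min (G : PercGame d I J P) (i0 : I) (hI : Subsingleton I) (n : ℕ) (ω : Ω) :
    ∀ z, total G n ω z = -W (fun ω z j => -G.g ω z i0 j) (fun j => G.q i0 j) n ω z := by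
  induction n with
  | zero => intro z; simp [total, W]
  | succ n ih =>
    intro z
    simp only [total, W]
    have h1 : ∀ i, (⨅ j, (G.g ω z i j + total G n ω (z + G.q i j))) =
        ⨅ j, (G.g ω z i0 j - W (fun ω z j => -G.g ω z i0 j) (fun j => G.q i0 j) n ω
          (z + G.q i0 j)) := by
      intro i
      rw [Subsingleton.elim i i0]
      congr 1
      funext j
      rw [ih]
      ring
    have hne : Nonempty I := ⟨i0⟩
    simp_rw [h1]
    rw [ciSup_const]
    have h2 := Real.mul_iInf_of_nonpos (show (-1 : ℝ) ≤ 0 by norm_num)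
      (fun j => G.g ω z i0 j - W (fun ω z j => -G.g ω z i0 j) (fun j => G.q i0 j) n ω
          (z + G.q i0 j))
    have h3 : ∀ j, -1 * (G.g ω z i0 j - W (fun ω z j => -G.g ω z i0 j) (fun j => G.q i0 j) n ω
          (z + G.q i0 j)) = -G.g ω z i0 j + W (fun ω z j => -G.g ω z i0 j)
          (fun j => G.q i0 j) n ω (z + G.q i0 j) := by
      intro j
      ring
    simp_rw [h3] at h2
    rw [← h2]
    ring

/-- Every one-player percolation game with stationary payoffs has a limit value. -/
theorem result [IsProbabilityMeasure P] [Finite I] [Nonempty I] [Finite J] [Nonempty J]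
    (G : PercGame d I J P) (hone : Subsingleton I ∨ Subsingleton J) (z : Fin d → ℤ) :
    ∀ᵐ ω ∂P, ∃ l, Tendsto (fun n => value G n ω z) atTop (𝓝 l) := by
  obtain ⟨C, hC⟩ := G.g_bdd
  rcases hone with hI | hJ
  · obtain ⟨i0⟩ := ‹Nonempty I›
    have := value_lim (μ := P) (fun ω z j => -G.g ω z i0 j) (fun j => G.q i0 j) G.τ G.τ_mp
      (fun x ω z j => by rw [G.g_stat]) (fun z j => (G.g_meas z i0 j).neg) C
      (fun ω z j => by rw [abs_neg]; exact hC ω z i0 j) z
    filter_upwards [this] with ω hω
    obtain ⟨l, hl⟩ := hω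
    refine ⟨-l, ?_⟩
    unfold value
    simp_rw [total_min G i0 hI, neg_div]
    exact hl.neg
  · obtain ⟨j0⟩ := ‹Nonempty J›
    have := value_lim (μ := P) (fun ω z i => G.g ω z i j0) (fun i => G.q i j0) G.τ G.τ_mp
      (fun x ω z i => by rw [G.g_stat]) (fun z i => G.g_meas z i j0) C
      (fun ω z i => hC ω z i j0) z
    filter_upwards [this] with ω hω
    obtain ⟨l, hl⟩ := hω
    refine ⟨l, ?_⟩
    unfold value
    simp_rw [total_max G j0 hJ]
    exact hl

end Pool.Agent.Results.MP_5b044e_pr.LimitValue
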